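import Mathlib
import Pool.Agent.U307.RAD.Stm

set_option autoImplicit false

open MeasureTheory Filter Topology Set

namespace Pool.Agent.U37.RAD

open Pool.Agent.U307.RAD

lemma qq_mul (n l j : ℕ) (r : ℝ) : qq n l r * r ^ (l + 2 * j) =
    ∑ i ∈ Finset.range n, (2 * Cc n l i) * r ^ (2 * (l + i + j) + 1) := by
  unfold qq uu
  rw [show r * (2 * ∑ i ∈ Finset.range n, Cc n l i * r ^ (l + 2 * i)) * r ^ (l + 2 * j) =
    (∑ i ∈ Finset.range n, Cc n l i * r ^ (l + 2 * i)) * (2 * r * r ^ (l + 2 * j)) by ring,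
    Finset.sum_mul]
  apply Finset.sum_congr rfl
  intro i _
  rw [show 2 * (l + i + j) + 1 = (l + 2 * i) + (l + 2 * j) + 1 by ring, pow_succ, pow_add]
  ring

lemma qq_continuous (n l : ℕ) : Continuous (qq n l) := by
  unfold qq uu
  fun_prop

lemma int_qq (n l j : ℕ) : ∫ r in (0 : ℝ)..1, qq n l r * r ^ (l + 2 * j) =
    ∑ i ∈ Finset.range n, Cc n l i / ((l : ℝ) + 1 + i + j) := by
  simp only [qq_mul]
  rw [intervalIntegral.integral_finsetSum
    (fun i _ => (Continuous.intervalIntegrable (by fun_prop) _ _))]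
  apply Finset.sum_congr rfl
  intro i _
  rw [intervalIntegral.integral_const_mul, integral_pow]
  have h1 : ((l : ℝ) + 1 + i + j) ≠ 0 := by positivity
  push_cast
  rw [one_pow, zero_pow (by omega), sub_zero]
  have h2 : (2 * ((l : ℝ) + i + j) + 1 + 1) ≠ 0 := by positivity
  field_simp
  ring

lemma Mm_zero (n l j : ℕ) (h : j < n) : Mm n l j = 0 := by
  unfold Mm
  apply Finset.prod_eq_zero (Finset.mem_range.mpr h)
  simp

theorem t_MOM : S_PF → S_MOM := by
  intro hPF n l hn
  obtain ⟨h1, h2⟩ := hPF n l hn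
  have h3 : ∀ j : ℕ, ∫ r in (0 : ℝ)..1, qq n l r * r ^ (l + 2 * j) = 1 - Mm n l j := by
    intro j
    rw [int_qq]
    exact h1 j
  refine ⟨h3, ?_⟩
  have h4 : ∀ r : ℝ, uu n l r ^ 2 * r =
      ∑ j ∈ Finset.range n, (2 * Cc n l j) * (qq n l r * r ^ (l + 2 * j)) := by
    intro r
    have e : uu n l r ^ 2 * r = uu n l r * qq n l r := by unfold qq; ring
    rw [e]
    conv_lhs => rw [uu]
    rw [Finset.mul_sum, Finset.sum_mul]
    apply Finset.sum_congr rfl
    intro j _
    ring
  simp only [h4]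
  have h5 : ∀ i ∈ Finset.range n, IntervalIntegrable
      (fun r : ℝ => 2 * Cc n l i * (qq n l r * r ^ (l + 2 * i))) volume 0 1 := by
    intro i _
    have hc := qq_continuous n l
    exact Continuous.intervalIntegrable (by fun_prop) _ _
  rw [intervalIntegral.integral_finsetSum h5]
  rw [Finset.sum_congr rfl (g := fun j => 2 * Cc n l j) (by
    intro j hj
    rw [intervalIntegral.integral_const_mul, h3 j, Mm_zero n l j (Finset.mem_range.mp hj)]
    ring)]
  rw [← Finset.mul_sum, h2]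

end Pool.Agent.U37.RAD
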